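import Pool.Agent.Helper29.SR.Props
import Pool.Agent.Helper94.UG.Conv
import Pool.Agent.Helper79.UG.N2

/-!
# MP_b55b7c_an, project SR: compactness of the set of tracial states (packet Cover)
-/

open scoped ENNReal NNReal InnerProductSpace ComplexOrder
open Filter Topology

attribute [-instance] CStarMatrix.instAlgebra CStarMatrix.instModule CStarMatrix.instSMul
  CStarMatrix.instMulAction CStarMatrix.instDistribMulAction

noncomputable section
namespace RC
universe u

/-- Packet `Cover`. -/
theorem cover73 : CoverP.{u} := by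
  intro M _ _ _ S f hf
  let α : Empty → M ≃⋆ₐ[ℂ] M := fun g => g.elim
  have hopen : ∀ s : S, IsOpen {F : M → ℂ | 0 < (F (f s)).re} := fun s =>
    isOpen_lt continuous_const (Complex.continuous_re.comp (continuous_apply _))
  obtain ⟨T, hT⟩ := (Conv94.kset_compact n2P α).elim_finite_subcover
    (fun s : S => {F : M → ℂ | 0 < (F (f s)).re}) hopen (by
      rintro F ⟨φ, -, hF⟩
      obtain ⟨s, hs⟩ := hf φ
      refine Set.mem_iUnion.mpr ⟨s, ?_⟩
      show 0 < (F (f s)).re
      rw [← hF]
      exact hs)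
  refine ⟨T, fun φ => ?_⟩
  have hmem : (fun a => φ.φ a) ∈ Conv94.KSet α := ⟨φ, fun g => g.elim, fun _ => rfl⟩
  obtain ⟨s, hs⟩ := Set.mem_iUnion.mp (hT hmem)
  obtain ⟨hsT, hs2⟩ := Set.mem_iUnion.mp hs
  exact ⟨s, hsT, hs2⟩

end RC
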